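import Mathlib

/-!
The algebra of the descent on the exponent: the division lemma in a tower of Gysin sequences and
the descent itself.
-/

namespace Pool.Agent.MP_826def_gt.D11

noncomputable section

variable {A : Type 1} [CommRing A] {B S : ℕ → Type 1} [∀ m, AddCommGroup (B m)]
  [∀ m, Module A (B m)] [∀ m, AddCommGroup (S m)] [∀ m, Module A (S m)] {M : Type 1}
  [AddCommGroup M]

/-- An element killed by `t` is divisible by `w` after two restrictions. -/
theorem division (t w : A) (π : ∀ m, B m →ₗ[A] S m) (γ : ∀ m, S m →ₗ[A] B m)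
    (rB : ∀ m, B (m + 1) →ₗ[A] B m) (rS : ∀ m, S (m + 1) →ₗ[A] S m) (ι : ∀ m, M →+ B m) (m : ℕ)
    (h1 : ∀ y : B (m + 2), t • y = 0 → rB (m + 1) y = 0)
    (h2 : ∀ y : B (m + 1), t • y = 0 → rB m y = 0)
    (hγ : ∀ y, γ (m + 1) (rS (m + 1) y) = rB (m + 1) (γ (m + 2) y))
    (hπ : ∀ y, rS m (π (m + 1) y) = π m (rB m y))
    (e1 : ∀ y, γ (m + 1) y = 0 → ∃ u, π (m + 1) u = y)
    (e2 : ∀ u, π (m + 1) u = 0 → ∃ u', (t * w) • u' = u)
    (e3 : ∀ u, π m ((t * w) • u) = 0) (gen : ∀ u : B m, ∃ c u', u = ι m c + t • u')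
    (y : S (m + 2)) (hy : t • y = 0) : ∃ c, rS m (rS (m + 1) y) = w • π m (ι m c) := by
  obtain ⟨u, hu⟩ := e1 (rS (m + 1) y) (by
    rw [hγ]
    exact h1 _ (by rw [← map_smul, hy, map_zero]))
  obtain ⟨u', hu'⟩ := e2 (t • u) (by rw [map_smul, hu, ← map_smul, hy, map_zero])
  have h3 := h2 (u - w • u') (by rw [smul_sub, smul_smul, hu', sub_self])
  rw [map_sub, sub_eq_zero, map_smul] at h3
  obtain ⟨c, u'', hc⟩ := gen (rB m u')
  refine ⟨c, ?_⟩
  rw [← hu, hπ, h3, hc, smul_add, map_add, smul_smul, mul_comm w t, e3, add_zero, map_smul]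

/-- The sums of the elements `t ^ i • j c` with `c` in `R`. -/
def Psi (t : A) {T : Type 1} [AddCommGroup T] [Module A T] (j : M →+ T) (R : AddSubgroup M) :
    AddSubgroup T :=
  AddSubgroup.closure {y | ∃ (i : ℕ) (c : M), c ∈ R ∧ y = t ^ i • j c}

theorem Psi.mem (t : A) {T : Type 1} [AddCommGroup T] [Module A T] (j : M →+ T)
    {R : AddSubgroup M} (i : ℕ) {c : M} (hc : c ∈ R) : t ^ i • j c ∈ Psi t j R :=
  AddSubgroup.subset_closure ⟨i, c, hc, rfl⟩

theorem Psi.map {t : A} {T T' : Type 1} [AddCommGroup T] [Module A T] [AddCommGroup T']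
    {j : M →+ T} {R : AddSubgroup M} (f : T →+ T') (P : AddSubgroup T')
    (H : ∀ (i : ℕ), ∀ c ∈ R, f (t ^ i • j c) ∈ P) {y : T} (hy : y ∈ Psi t j R) : f y ∈ P := by
  have : Psi t j R ≤ P.comap f := (AddSubgroup.closure_le _).2 (by
    rintro _ ⟨i, c, hc, rfl⟩
    exact H i c hc)
  exact this hy

theorem Psi.split {t : A} {T : Type 1} [AddCommGroup T] [Module A T] {j : M →+ T}
    {R : AddSubgroup M} {y : T} (hy : y ∈ Psi t j R) :
    ∃ c, ∃ z ∈ Psi t j R, y = j c + t • z := by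
  induction hy using AddSubgroup.closure_induction with
  | mem x hx =>
    obtain ⟨i, c, hc, rfl⟩ := hx
    cases i with
    | zero => exact ⟨c, 0, zero_mem _, by simp⟩
    | succ i => exact ⟨0, _, Psi.mem t j i hc, by rw [map_zero, zero_add, smul_smul, pow_succ']⟩
  | zero => exact ⟨0, 0, zero_mem _, by simp⟩
  | add x y _ _ hx hy =>
    obtain ⟨c, z, hz, rfl⟩ := hx
    obtain ⟨c', z', hz', rfl⟩ := hy
    exact ⟨c + c', z + z', add_mem hz hz', by rw [map_add, smul_add]; abel⟩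
  | neg x _ hx =>
    obtain ⟨c, z, hz, rfl⟩ := hx
    exact ⟨-c, -z, neg_mem hz, by rw [map_neg, smul_neg]; abel⟩

/-- The descent on the exponent. -/
theorem descent (t w : A) (N : ℕ) (d : ℤ) (R : AddSubgroup M) (j : ∀ m, M →+ S m)
    (r : ∀ m, S (m + 1) →ₗ[A] S m) (ev : ∀ m, S (m + 1) →+ M) (p : ∀ m, ℤ → S m →+ S m)
    (q : ℤ → M →+ M)
    (div : ∀ m, m + 2 ≤ N → ∀ y : S (m + 2), t • y = 0 → ∃ c, r m (r (m + 1) y) = w • j m c)
    (rj : ∀ m c, r m (j (m + 1) c) = j m c) (evj : ∀ m c, ev m (j (m + 1) c) = c)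
    (evt : ∀ m y, ev m (t • y) = 0) (evr : ∀ m y, ev m (r (m + 1) y) = ev (m + 1) y)
    (w1 : ∀ m c, ev m (w • j (m + 1) c) ∈ R) (w2 : ∀ m, ∀ c ∈ R, w • j m c ∈ Psi t (j m) R)
    (pt : ∀ m e y, p m (e + 1) (t • y) = t • p m e y) (pj : ∀ m e c, p m e (j m c) = j m (q e c))
    (pw : ∀ m e c, p m e (w • j m c) = w • j m (q e c))
    (pr : ∀ m e y, r m (p (m + 1) e y) = p m e (r m y)) (qR : ∀ e, ∀ c ∈ R, q e c ∈ R)
    (qd : ∀ e > d, ∀ c, q e c ∈ R) (k : ℕ) :
    ∀ m, 2 * k ≤ m → m + 1 ≤ N → ∀ y : S (m + 1), p (m + 1) d y = y →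
      t ^ k • y ∈ Psi t (j (m + 1)) R → ev m y ∈ R := by
  have ptk : ∀ m (i : ℕ) e y, p m (e + i) (t ^ i • y) = t ^ i • p m e y := fun m i => by
    induction i with
    | zero => intro e y; simp
    | succ i ih =>
      intro e y
      rw [pow_succ', mul_smul, mul_smul, Nat.cast_succ, ← add_assoc, pt, ih]
  have evP : ∀ m y, y ∈ Psi t (j (m + 1)) R → ev m y ∈ R := fun m y hy =>
    Psi.map (ev m) R (fun i c hc => by
      cases i with
      | zero => rwa [pow_zero, one_smul, evj]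
      | succ i => rw [pow_succ', mul_smul, evt]; exact zero_mem _) hy
  have rP : ∀ m y, y ∈ Psi t (j (m + 1)) R → r m y ∈ Psi t (j m) R := fun m y hy =>
    Psi.map (r m).toAddMonoidHom _ (fun i c hc => by
      rw [LinearMap.toAddMonoidHom_coe, map_smul, rj]
      exact Psi.mem t _ i hc) hy
  have pP : ∀ m e y, y ∈ Psi t (j m) R → p m e y ∈ Psi t (j m) R := fun m e y hy =>
    Psi.map (p m e) _ (fun i c hc => by
      rw [show e = e - i + i by ring, ptk, pj]
      exact Psi.mem t _ i (qR _ c hc)) hy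
  induction k with
  | zero =>
    intro m _ _ y _ hy
    rw [pow_zero, one_smul] at hy
    exact evP m y hy
  | succ k ih =>
    intro m hm hN y hd hy
    obtain ⟨m, rfl⟩ : ∃ m', m = m' + 2 := ⟨m - 2, by omega⟩
    obtain ⟨c, z, hz, e⟩ := Psi.split hy
    have hc : c = 0 := by
      have := congrArg (ev (m + 2)) e
      rwa [pow_succ', mul_smul, evt, map_add, evj, evt, add_zero, eq_comm] at this
    obtain ⟨c', hc'⟩ := div (m + 1) (by omega) (t ^ k • y - z) (by
      rw [smul_sub, smul_smul, ← pow_succ', e, hc, map_zero, zero_add, sub_self])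
    rw [map_sub, map_sub, map_smul, map_smul, sub_eq_iff_eq_add'] at hc'
    have hz' := rP _ _ (rP _ _ hz)
    rw [← evr, ← evr]
    cases k with
    | zero =>
      rw [pow_zero, one_smul] at hc'
      rw [hc', map_add]
      exact add_mem (evP _ _ hz') (w1 _ _)
    | succ k =>
      have hd' : p (m + 1) d (r (m + 1) (r (m + 2) y)) = r (m + 1) (r (m + 2) y) := by
        rw [← pr, ← pr, hd]
      refine ih m (by omega) (by omega) _ hd' ?_
      rw [← hd', ← ptk, hc', map_add, pw]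
      exact add_mem (pP _ _ _ hz') (w2 _ _ (qd _ (by push_cast; omega) _))

end

end Pool.Agent.MP_826def_gt.D11
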