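import Pool.Agent.MP_826def_gt.MU.Spec

/-!
The real projective spaces as sphere bundles of the square of the tautological bundle.
-/

namespace Pool.Agent.MP_826def_gt.D11

open MU Set Topology

noncomputable section

/-- The square of the tautological bundle. -/
abbrev sq (N m : ℕ) : Bun (CP N m) := tm (ContinuousMap.id _) (ContinuousMap.id _)

/-- The sphere bundle of the square of the tautological bundle. -/
def RP (N m : ℕ) : Type := {z : CP N m × FD.mat N // (sq N m).p z.1 z.2 = z.2 ∧ ‖z.2‖ = 1}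

instance (N m : ℕ) : TopologicalSpace (RP N m) := instTopologicalSpaceSubtype

instance (N m : ℕ) : T2Space (RP N m) :=
  inferInstanceAs (T2Space {z : CP N m × FD.mat N // (sq N m).p z.1 z.2 = z.2 ∧ ‖z.2‖ = 1})

instance (N m : ℕ) : CompactSpace (RP N m) := by
  refine isCompact_iff_compactSpace.1 (?_ : IsCompact {z : CP N m × FD.mat N | _})
  refine ((isCompact_univ (X := CP N m)).prod
    (isCompact_sphere (0 : FD.mat N) 1)).of_isClosed_subset ?_ fun z hz =>
      ⟨trivial, mem_sphere_zero_iff_norm.2 hz.2⟩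
  exact (isClosed_eq (((sq N m).p.continuous.comp continuous_fst).clm_apply continuous_snd)
    continuous_snd).inter (isClosed_eq continuous_snd.norm continuous_const)

/-- The projection to the complex projective space. -/
def RP.pr (N m : ℕ) : C(RP N m, CP N m) :=
  ⟨fun z => z.1.1, continuous_fst.comp continuous_subtype_val⟩

/-- The tautological section. -/
def RP.mat (N m : ℕ) : C(RP N m, FD.mat N) :=
  ⟨fun z => z.1.2, continuous_snd.comp continuous_subtype_val⟩

theorem RP.isSph (N m : ℕ) : IsSph (sq N m) (RP.pr N m) (RP.mat N m) :=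
  ⟨IsEmbedding.subtypeVal, Subtype.range_coe_subtype⟩

/-- The inclusion of real projective spaces. -/
def RP.incl (N : ℕ) {m m' : ℕ} (hm : m ≤ m') : C(RP N m, RP N m') :=
  ⟨fun z => ⟨(CP.incl N hm z.1.1, z.1.2), z.2⟩,
    (((CP.incl N hm).continuous.comp (RP.pr N m).continuous).prodMk
      (RP.mat N m).continuous).subtype_mk _⟩

/-- The map to the full projective space. -/
def top (N m : ℕ) : C(CP N m, CP N N) :=
  ⟨fun q => ⟨q.1, q.2.imp fun _ hu => ⟨hu.1, fun i hi => absurd i.2 (not_lt.2 hi), hu.2.2⟩⟩,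
    continuous_subtype_val.subtype_mk _⟩

/-- The matrix `u uᵀ`. -/
def dy {N : ℕ} (u : Fin N → ℂ) : Fin N → Fin N → ℂ := fun i j => u i * u j

theorem dy_fix {N : ℕ} {u : Fin N → ℂ} (hu : u ≠ 0) :
    mv2 (mv (pj u)) (mv (pj u)) (dy u) = dy u := by
  funext i
  have e : ∀ j, (fun k => dy u k j) = u j • u := fun j => funext fun k => mul_comm _ _
  have e2 : (fun j => mv (pj u) (fun k => dy u k j) i) = u i • u := funext fun j => by
    rw [e, map_smul, mv_pj_self hu]
    exact mul_comm _ _
  rw [mv2_apply, e2, map_smul, mv_pj_self hu]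
  rfl

theorem dy_norm {N : ℕ} (u : Fin N → ℂ) : ‖dy u‖ = ‖u‖ * ‖u‖ := by
  have e : ∀ i, ‖dy u i‖ = ‖u i‖ * ‖u‖ := fun i => norm_smul (u i) u
  refine le_antisymm ((pi_norm_le_iff_of_nonneg (by positivity)).2 fun i => ?_) ?_
  · rw [e]
    exact mul_le_mul_of_nonneg_right (norm_le_pi_norm u i) (norm_nonneg _)
  · rcases (norm_nonneg u).eq_or_lt with h0 | h0
    · rw [← h0, mul_zero]
      exact norm_nonneg _
    · rw [← le_div_iff₀ h0]
      refine (pi_norm_le_iff_of_nonneg (by positivity)).2 fun i => ?_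
      rw [le_div_iff₀ h0, ← e]
      exact norm_le_pi_norm (dy u) i

/-- The point of the real projective space given by a unit vector. -/
def RP.mk {N m : ℕ} (u : Fin N → ℂ) (hu : ‖u‖ = 1) (h0 : ∀ i : Fin N, m ≤ i → u i = 0) : RP N m :=
  ⟨(⟨pj u, u, hu, h0, rfl⟩, dy u), dy_fix (fun e => by
    rw [e, norm_zero] at hu
    exact zero_ne_one hu), (dy_norm u).trans (by rw [hu, mul_one])⟩

/-- Every point comes from a unit vector. -/
theorem RP.exists_mk {N m : ℕ} (z : RP N m) : ∃ u hu h0, RP.mk u hu h0 = z := by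
  obtain ⟨⟨⟨q, u, hu, h0, rfl⟩, M⟩, h1, h2⟩ := z
  have hn : u ≠ 0 := fun e => by
    rw [e, norm_zero] at hu
    exact zero_ne_one hu
  have h1' : mv2 (mv (pj u)) (mv (pj u)) M = M := h1
  set n : ℂ := ((∑ k, Complex.normSq (u k) : ℝ) : ℂ) with hn'
  obtain ⟨α, hα⟩ : ∃ α : ℂ, M = α • dy u := by
    refine ⟨(∑ j, (starRingEnd ℂ) (u j) * ((∑ k, (starRingEnd ℂ) (u k) * M k j) / n)) / n, ?_⟩
    funext i j
    conv_lhs => rw [← h1', mv2_apply, mv_pj]
    simp only [mv_pj, Pi.smul_apply, smul_eq_mul, dy, ← hn']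
    rw [Finset.sum_div, Finset.sum_div, Finset.sum_mul, Finset.sum_mul]
    exact Finset.sum_congr rfl fun l _ => by ring
  obtain ⟨β, hβ⟩ := IsAlgClosed.exists_pow_nat_eq α two_pos
  have hM : M = dy (β • u) := by
    rw [hα, ← hβ]
    funext i j
    simp only [dy, Pi.smul_apply, smul_eq_mul]
    ring
  have hb : ‖β • u‖ = 1 := by
    have h3 : ‖M‖ = 1 := h2
    rw [hM, dy_norm] at h3
    nlinarith [norm_nonneg (β • u)]
  have hb1 : Complex.normSq β = 1 := by
    rw [norm_smul, hu, mul_one] at hb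
    rw [Complex.normSq_eq_norm_sq, hb, one_pow]
  refine ⟨β • u, hb, fun i hi => by rw [Pi.smul_apply, h0 i hi, smul_zero], ?_⟩
  refine Subtype.ext (Prod.ext (Subtype.ext ?_) hM.symm)
  funext i j
  show pj (β • u) i j = pj u i j
  simp only [pj, Pi.smul_apply, smul_eq_mul, map_mul, hb1, one_mul]
  have : β * (starRingEnd ℂ) β = 1 := by rw [Complex.mul_conj, hb1, Complex.ofReal_one]
  linear_combination (u i * (starRingEnd ℂ) (u j) / n) * this

theorem dy_inj {N : ℕ} {u u' : Fin N → ℂ} (e : dy u = dy u') : u' = u ∨ u' = -u := by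
  by_cases hu : u = 0
  · left
    funext i
    have := congrFun (congrFun e i) i
    rw [hu] at this ⊢
    simp only [dy, Pi.zero_apply, mul_zero] at this
    exact mul_self_eq_zero.1 this.symm
  · obtain ⟨i, hi⟩ := Function.ne_iff.1 hu
    have h1 : ∀ j, u i * u j = u' i * u' j := fun j => congrFun (congrFun e i) j
    rcases mul_self_eq_mul_self_iff.1 (h1 i) with h2 | h2
    · left
      funext j
      exact (mul_left_cancel₀ hi ((h1 j).trans (by rw [h2]))).symm
    · right
      funext j
      refine mul_left_cancel₀ hi ?_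
      rw [Pi.neg_apply, mul_neg, h1 j, h2]
      ring

/-- The first basis vector. -/
def e0 (n : ℕ) : Fin (n + 1) → ℂ := Pi.single 0 1

theorem e0_norm (n : ℕ) : ‖e0 n‖ = 1 := by
  rw [e0, Pi.norm_single, norm_one]

/-- The base point. -/
def RP.pt (n m : ℕ) : RP (n + 1) (m + 1) :=
  RP.mk (e0 n) (e0_norm n) fun i hi => Pi.single_eq_of_ne (fun e => by
    rw [e] at hi
    simp at hi) _

theorem sph_prod {B S : Type} [TopologicalSpace B] [TopologicalSpace S] (X : Type)
    [TopologicalSpace X] {ξ : Bun B} {π : C(S, B)} {t : C(S, ξ.W)} (H : IsSph ξ π t) :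
    IsSph (ξ.pull (ContinuousMap.fst : C(B × X, B))) (π.prodMap (ContinuousMap.id X))
      (t.comp ContinuousMap.fst) := by
  constructor
  · let e : (B × ξ.W) × X ≃ₜ (B × X) × ξ.W :=
      { toFun := fun z => ((z.1.1, z.2), z.1.2)
        invFun := fun z => ((z.1.1, z.2), z.1.2)
        left_inv := fun _ => rfl
        right_inv := fun _ => rfl }
    exact e.isEmbedding.comp (H.1.prodMap IsEmbedding.id)
  · ext z
    constructor
    · rintro ⟨s, rfl⟩
      have : (π s.1, t s.1) ∈ range fun e => (π e, t e) := mem_range_self _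
      rw [H.2] at this
      exact this
    · intro hz
      have : (z.1.1, z.2) ∈ range fun e => (π e, t e) := by
        rw [H.2]
        exact hz
      obtain ⟨s, hs⟩ := this
      exact ⟨(s, z.1.2), Prod.ext (Prod.ext (Prod.ext_iff.1 hs).1 rfl) (Prod.ext_iff.1 hs).2⟩

end

end Pool.Agent.MP_826def_gt.D11
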